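import Pool.Agent.W482.LR.Main
set_option autoImplicit false

/-!
# Candidate lists: Dantzig's rule and the lower bound
-/

namespace Pool.Agent.W482.LR

open Finset

/-- the rank of the row `r` in the order `p` -/
def rk {N : ℕ} (p : Fin N → ℕ) (r : Fin N) : ℕ := ((univ : Finset (Fin N)).filter fun s => p s < p r).card

lemma rk_lt {N : ℕ} (p : Fin N → ℕ) {r s : Fin N} (h : p s < p r) : rk p s < rk p r := by
  refine card_lt_card ?_
  rw [ssubset_iff_of_subset (fun u hu => ?_)]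
  · exact ⟨s, mem_filter.2 ⟨mem_univ s, h⟩, fun hs => lt_irrefl _ (mem_filter.1 hs).2⟩
  · rw [mem_filter] at hu ⊢
    exact ⟨hu.1, hu.2.trans h⟩

lemma rk_le {N : ℕ} (p : Fin N → ℕ) (r : Fin N) : rk p r ≤ N - 1 := by
  have h1 : rk p r < N := by
    have h2 : rk p r < (univ : Finset (Fin N)).card := by
      refine card_lt_card ?_
      rw [ssubset_iff_of_subset (filter_subset _ _)]
      exact ⟨r, mem_univ r, fun hs => lt_irrefl _ (mem_filter.1 hs).2⟩
    rwa [card_univ, Fintype.card_fin] at h2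
  omega

lemma mu_abs {X : Type*} [DecidableEq X] (B : ℕ → Finset X) (v : X → Bool) (i : ℕ) :
    |mu B v i| ≤ (B i).card := by
  refine (abs_sum_le_sum_abs _ _).trans ?_
  rw [card_eq_sum_ones]
  push_cast
  refine sum_le_sum fun l _ => ?_
  split_ifs <;> simp

lemma ww_abs {X : Type*} [DecidableEq X] (B : ℕ → Finset X) {β : ℕ} (hB : ∀ i, (B i).card ≤ β)
    (K : ℕ) (v : X → Bool) (i : ℕ) : |ww B K v i| ≤ (β : ℤ) ^ (K - i) := by
  rw [ww, abs_prod]
  calc ∏ k ∈ Finset.Ico i K, |mu B v k| ≤ ∏ k ∈ Finset.Ico i K, (β : ℤ) :=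
        prod_le_prod (fun _ _ => abs_nonneg _) fun k _ => (mu_abs B v k).trans (by
          exact_mod_cast hB k)
    _ = (β : ℤ) ^ (K - i) := by rw [prod_const, Nat.card_Ico]

section
variable {m t K n : ℕ} {π : Fin m → Fin (2 * n) → ℕ} {cl : Fin m → Fin m}
    {e : Fin (2 * n) ≃ Fin n × Bool} {bl : Fin n → Option (Fin m × ℕ)} {D : ℕ}

/-- Dantzig's rule is the rule of the first improving row -/
theorem dantzig_list (hd : Data m t K n π cl e bl) (ht : 1 ≤ t) (hK : 1 ≤ K) (q : Fin m)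
    (h : Sett bl D (fun r => (D ^ K) ^ rk (π q) r) (2 * t - 1)) (v : Fin n → Bool) (y : Fin n → ℝ)
    (hs : DantzigStep (mat bl D e fun r => (D ^ K) ^ rk (π q) r)
      (rhs bl D e fun r => (D ^ K) ^ rk (π q) r) (obj bl K) (vtx bl D v) y) :
    ListStep (mat bl D e fun r => (D ^ K) ^ rk (π q) r)
      (rhs bl D e fun r => (D ^ K) ^ rk (π q) r) (obj bl K) π t (vtx bl D v) y := by
  have hE : LPE := Pool.Agent.W305.LR.lpe
  have hR : LPR := Pool.Agent.W465.LR.lpr
  have hD : 0 < D := by have := h.d; omega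
  obtain ⟨r, hp, hlt, hmax⟩ := hs
  refine ⟨q, r, hp, hlt, ?_⟩
  have hempty : {s | Improving (mat bl D e fun r => (D ^ K) ^ rk (π q) r)
      (rhs bl D e fun r => (D ^ K) ^ rk (π q) r) (obj bl K) (vtx bl D v) s ∧ π q s < π q r} = ∅ := by
    rw [Set.eq_empty_iff_forall_notMem]
    rintro s ⟨hs, hsr⟩
    obtain ⟨hvr, rfl⟩ := (h.pivot hE hR v r y).1 hp
    obtain ⟨_, j, i, hbl, hup⟩ := (h.improving hE hR hK hd.below v r).1 ⟨_, hp, hlt⟩
    obtain ⟨hvs, j', i', hbl', hup'⟩ := (h.improving hE hR hK hd.below v s).1 hs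
    have h1 := hmax s _ ((h.pivot hE hR v s _).2 ⟨hvs, rfl⟩)
    rw [h.rate hR hd.below v r hvr hbl, h.rate hR hd.below v s hvs hbl'] at h1
    have hi := hd.below _ _ _ hbl
    have hi' := hd.below _ _ _ hbl'
    -- the bound from above
    have hDr : (1 : ℝ) ≤ D := by exact_mod_cast hD
    have a1 : sg v (e r).1 * (ww (blk bl j) K v (i + 1) : ℝ) < (D : ℝ) ^ (K - i) := by
      have h2 : |(ww (blk bl j) K v (i + 1) : ℝ)| ≤ ((2 * t - 1 : ℕ) : ℝ) ^ (K - (i + 1)) := by
        have := ww_abs (blk bl j) (h.c j) K v (i + 1)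
        exact_mod_cast this
      have h3 : sg v (e r).1 * (ww (blk bl j) K v (i + 1) : ℝ) ≤
          |(ww (blk bl j) K v (i + 1) : ℝ)| := by
        unfold sg
        split_ifs
        · rw [neg_one_mul]; exact neg_le_abs _
        · rw [one_mul]; exact le_abs_self _
      have h4 : ((2 * t - 1 : ℕ) : ℝ) ^ (K - (i + 1)) ≤ (D : ℝ) ^ (K - (i + 1)) := by
        refine pow_le_pow_left₀ (Nat.cast_nonneg _) ?_ _
        have := h.d
        exact_mod_cast (by omega : 2 * t - 1 ≤ D)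
      have h5 : (D : ℝ) ^ (K - (i + 1)) < (D : ℝ) ^ (K - i) := by
        refine pow_lt_pow_right₀ ?_ (by omega)
        have := h.d
        exact_mod_cast (by omega : 1 < D)
      linarith
    have a2 : (1 : ℝ) ≤ sg v (e s).1 * (ww (blk bl j') K v (i' + 1) : ℝ) := by
      unfold Up at hup'
      have h2 : (1 : ℤ) ≤ (if v (e s).1 then -1 else 1) * ww (blk bl j') K v (i' + 1) := hup'
      unfold sg
      exact_mod_cast h2
    have a3 : (D : ℝ) ^ (K - i') ≤ (D : ℝ) ^ K := pow_le_pow_right₀ hDr (by omega)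
    have k1 : ((D ^ K) ^ rk (π q) s * D ^ K : ℝ) ≤ (D ^ K) ^ rk (π q) r := by
      rw [← pow_succ]
      exact pow_le_pow_right₀ (one_le_pow₀ hDr) (rk_lt _ hsr)
    have hDp : (0 : ℝ) < D := by linarith
    have b1 : sg v (e r).1 * (ww (blk bl j) K v (i + 1) : ℝ) / (D : ℝ) ^ (K - i) /
        (((D ^ K) ^ rk (π q) r : ℕ) : ℝ) < 1 / ((D ^ K) ^ rk (π q) s * D ^ K : ℝ) := by
      push_cast
      have c1 : sg v (e r).1 * (ww (blk bl j) K v (i + 1) : ℝ) / (D : ℝ) ^ (K - i) < 1 := by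
        rw [div_lt_one (by positivity)]
        exact a1
      calc _ < 1 / ((D : ℝ) ^ K) ^ rk (π q) r := by gcongr
        _ ≤ _ := one_div_le_one_div_of_le (by positivity) k1
    have b2 : 1 / ((D ^ K) ^ rk (π q) s * D ^ K : ℝ) ≤
        sg v (e s).1 * (ww (blk bl j') K v (i' + 1) : ℝ) / (D : ℝ) ^ (K - i') /
        (((D ^ K) ^ rk (π q) s : ℕ) : ℝ) := by
      push_cast
      rw [div_div, div_le_div_iff₀ (by positivity) (by positivity)]
      calc 1 * ((D : ℝ) ^ (K - i') * (D ^ K) ^ rk (π q) s)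
          ≤ 1 * ((D : ℝ) ^ K * (D ^ K) ^ rk (π q) s) := by gcongr
        _ = 1 * ((D ^ K) ^ rk (π q) s * (D : ℝ) ^ K) := by ring
        _ ≤ _ := by gcongr
    linarith
  rw [hempty, Set.ncard_empty]
  omega

/-- the lower bound for the runs -/
theorem run_bound (hd : Data m t K n π cl e bl) (ht : 1 ≤ t) (hK : 1 ≤ K) (q : Fin m)
    (h : Sett bl D (fun r => (D ^ K) ^ rk (π q) r) (2 * t - 1)) (L : ℕ) (x : ℕ → Fin n → ℝ)
    (hx0 : x 0 = vtx bl D fun _ => false)
    (hx : ∀ k < L, ListStep (mat bl D e fun r => (D ^ K) ^ rk (π q) r)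
        (rhs bl D e fun r => (D ^ K) ^ rk (π q) r) (obj bl K) π t (x k) (x (k + 1)) ∨
      DantzigStep (mat bl D e fun r => (D ^ K) ^ rk (π q) r)
        (rhs bl D e fun r => (D ^ K) ^ rk (π q) r) (obj bl K) (x k) (x (k + 1)))
    (hend : ∀ y ∈ poly (mat bl D e fun r => (D ^ K) ^ rk (π q) r)
      (rhs bl D e fun r => (D ^ K) ^ rk (π q) r), val (obj bl K) y ≤ val (obj bl K) (x L)) :
    2 ^ K - 1 ≤ L := by
  have hE : LPE := Pool.Agent.W305.LR.lpe
  have hR : LPR := Pool.Agent.W465.LR.lpr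
  have hD : 0 < D := by have := h.d; omega
  have hpot := fun q => Pool.Agent.W683.LR.pot (blk bl (cl q)) K t ht
    (hd.card q) (fun a _ b _ hab => blk_disj bl (cl q) hab)
  by_contra hcon
  have hinv : ∀ k ≤ L, ∃ v, x k = vtx bl D v ∧
      ∀ q, 2 ^ K - 1 ≤ cnt (blk bl (cl q)) K v + k := by
    intro k
    induction k with
    | zero =>
      intro _
      refine ⟨_, hx0, fun q => ?_⟩
      rw [(hpot q).1 (fun _ => false) fun _ _ _ _ => rfl]
      omega
    | succ k ih =>
      intro hk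
      obtain ⟨v, hv, hc⟩ := ih (by omega)
      have hl : ListStep (mat bl D e fun r => (D ^ K) ^ rk (π q) r)
          (rhs bl D e fun r => (D ^ K) ^ rk (π q) r) (obj bl K) π t (vtx bl D v) (x (k + 1)) := by
        rw [← hv]
        rcases hx k (by omega) with h1 | h1
        · exact h1
        · rw [hv] at h1 ⊢
          exact dantzig_list hd ht hK q h v _ h1
      obtain ⟨v', hv', h2⟩ := list_step hd ht hK h v _ hl
      refine ⟨v', hv', fun q' => ?_⟩
      have h3 := h2 (fun q'' => by have := hc q''; omega) q'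
      have := hc q'
      omega
  obtain ⟨v, hv, hc⟩ := hinv L le_rfl
  have hpos : 0 < cnt (blk bl (cl q)) K v := by have := hc q; omega
  obtain ⟨i₀, hi₀, ⟨T, hT, hTc, hTup⟩, _⟩ := (hpot q).2 v hpos
  obtain ⟨l, hl⟩ : T.Nonempty := by rw [← card_pos]; omega
  have h1 : Improving (mat bl D e fun r => (D ^ K) ^ rk (π q) r)
      (rhs bl D e fun r => (D ^ K) ^ rk (π q) r) (obj bl K) (vtx bl D v) (e.symm (l, v l)) := by
    refine (h.improving hE hR hK hd.below v _).2 ⟨by rw [e.apply_symm_apply], cl q, i₀, ?_, ?_⟩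
    · rw [e.apply_symm_apply]
      exact mem_blk.1 (hT hl)
    · rw [e.apply_symm_apply]
      exact hTup l hl
  obtain ⟨y, hy, hlt⟩ := h1
  have h2 := hend y (extremePoints_subset hy.2.1)
  rw [hv] at h2
  exact absurd hlt (not_lt.2 h2)

/-- each vertex has exactly `n` tight rows and exactly one pivot for each of them -/
theorem simple_cube {κ : Fin (2 * n) → ℕ} {β : ℕ} (h : Sett bl D κ β) (x : Fin n → ℝ)
    (hx : x ∈ (poly (mat bl D e κ) (rhs bl D e κ)).extremePoints ℝ) :
    {r | row (mat bl D e κ) x r = rhs bl D e κ r}.ncard = n ∧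
      ∀ r, row (mat bl D e κ) x r = rhs bl D e κ r →
        ∃! y, Pivot (mat bl D e κ) (rhs bl D e κ) x r y := by
  have hE : LPE := Pool.Agent.W305.LR.lpe
  have hR : LPR := Pool.Agent.W465.LR.lpr
  obtain ⟨v, rfl⟩ := ((hE bl D e κ β h.c h.d h.k).2 x).1 hx
  constructor
  · have h1 : {r | row (mat bl D e κ) (vtx bl D v) r = rhs bl D e κ r} =
        Set.range fun l => e.symm (l, v l) := by
      ext r
      rw [Set.mem_range]
      constructor
      · intro hr
        refine ⟨(e r).1, ?_⟩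
        rw [Equiv.symm_apply_eq]
        exact Prod.ext rfl ((h.tight hR v r).1 hr)
      · rintro ⟨l, rfl⟩
        exact (h.tight hR v _).2 (by rw [e.apply_symm_apply])
    have hinj : Function.Injective fun l => e.symm (l, v l) := by
      intro a b hab
      have := e.symm.injective hab
      exact (Prod.mk.inj this).1
    rw [h1, ← Set.image_univ, Set.ncard_image_of_injective _ hinj, Set.ncard_univ,
      Nat.card_eq_fintype_card, Fintype.card_fin]
  · intro r hr
    have hv := (h.tight hR v r).1 hr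
    exact ⟨_, (h.pivot hE hR v r _).2 ⟨hv, rfl⟩, fun y hy => ((h.pivot hE hR v r y).1 hy).2⟩

lemma card_pre_le {β : ℕ} (hβ : ∀ j i, (blk bl j i).card ≤ β) (l : Fin n) :
    (pre bl l).card ≤ β := by
  unfold pre
  split
  · exact hβ _ _
  · simp

/-- the size of the entries -/
theorem entries {κ : Fin (2 * n) → ℕ} {β M : ℕ} (h : Sett bl D κ β) (hκ : ∀ r, κ r ≤ M) (r : Fin (2 * n)) :
    |rhs bl D e κ r| ≤ M * (3 * D) ∧ ∀ l, |mat bl D e κ r l| ≤ M * (3 * D) := by
  have h0 : ((pre bl (e r).1).card : ℤ) ≤ D := by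
    have := card_pre_le h.c (e r).1
    have := h.d
    exact_mod_cast (by omega : (pre bl (e r).1).card ≤ D)
  have h1 : (0 : ℤ) ≤ (pre bl (e r).1).card := Int.natCast_nonneg _
  have h2 : (κ r : ℤ) ≤ M := by exact_mod_cast hκ r
  have hD : (1 : ℤ) ≤ D := by
    have := h.d
    exact_mod_cast (by omega : 1 ≤ D)
  constructor
  · unfold rhs
    rw [abs_mul, Nat.abs_cast]
    refine mul_le_mul h2 ?_ (abs_nonneg _) (Int.natCast_nonneg _)
    rw [abs_le]
    split_ifs <;> constructor <;> linarith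
  · intro l
    unfold mat
    rw [abs_mul, Nat.abs_cast]
    refine mul_le_mul h2 ?_ (abs_nonneg _) (Int.natCast_nonneg _)
    rw [abs_le]
    split_ifs <;> constructor <;> linarith

end

end Pool.Agent.W482.LR
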