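import Pool.Agent.W482.LR.Stm
set_option autoImplicit false

/-!
# Pairing the rows
-/

namespace Pool.Agent.W482.LR

open Finset

lemma pairing {R T : Type*} [DecidableEq R] [DecidableEq T] (tag : R → T) :
    ∀ (n : ℕ) (S : Finset R), S.card = 2 * n → (∀ τ, Even (S.filter fun r => tag r = τ).card) →
      ∃ g : Fin n → Bool → R, (∀ i s, g i s ∈ S) ∧
        (∀ i s i' s', g i s = g i' s' → i = i' ∧ s = s') ∧ ∀ i s s', tag (g i s) = tag (g i s') := by
  intro n
  induction n with
  | zero => exact fun S _ _ => ⟨fun i => i.elim0, fun i => i.elim0, fun i => i.elim0, fun i => i.elim0⟩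
  | succ n ih =>
    intro S hS hev
    have hne : S.Nonempty := by rw [← card_pos]; omega
    obtain ⟨r, hr⟩ := hne
    set F := S.filter fun x => tag x = tag r with hF
    have hrF : r ∈ F := by rw [hF, mem_filter]; exact ⟨hr, rfl⟩
    have hF2 : 1 < F.card := by
      have h1 := hev (tag r)
      have h2 : 0 < F.card := card_pos.2 ⟨r, hrF⟩
      obtain ⟨k, hk⟩ := h1
      rw [← hF] at hk
      omega
    obtain ⟨r', hr', hne'⟩ := exists_mem_ne hF2 r
    have hr'S : r' ∈ S := (mem_filter.1 hr').1
    have htag : tag r' = tag r := (mem_filter.1 hr').2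
    have hr'e : r' ∈ S.erase r := mem_erase.2 ⟨hne', hr'S⟩
    have hc1 := card_erase_of_mem hr
    have hc2 := card_erase_of_mem hr'e
    obtain ⟨g, g1, g2, g3⟩ := ih ((S.erase r).erase r') (by omega) (by
      intro τ
      by_cases h : τ = tag r
      · subst h
        have h3 : ((S.erase r).erase r').filter (fun x => tag x = tag r) = (F.erase r).erase r' := by
          ext x
          simp only [hF, mem_filter, mem_erase]
          tauto
        have hr'F : r' ∈ F.erase r := mem_erase.2 ⟨hne', hr'⟩
        rw [h3, card_erase_of_mem hr'F, card_erase_of_mem hrF]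
        obtain ⟨k, hk⟩ := hev (tag r)
        rw [← hF] at hk
        exact ⟨k - 1, by omega⟩
      · have h3 : ((S.erase r).erase r').filter (fun x => tag x = τ) =
            S.filter fun x => tag x = τ := by
          ext x
          simp only [mem_filter, mem_erase]
          constructor
          · exact fun hx => ⟨hx.1.2.2, hx.2⟩
          · rintro ⟨hx, rfl⟩
            refine ⟨⟨?_, ?_, hx⟩, rfl⟩
            · rintro rfl; exact h htag
            · rintro rfl; exact h rfl
        rw [h3]
        exact hev τ)
    refine ⟨Fin.cons (fun s => if s then r else r') g, ?_, ?_, ?_⟩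
    · intro i
      refine Fin.cases ?_ (fun i => ?_) i
      · intro s
        rw [Fin.cons_zero]
        show (if s then r else r') ∈ S
        split_ifs
        · exact hr
        · exact hr'S
      · intro s
        rw [Fin.cons_succ]
        exact mem_of_mem_erase (mem_of_mem_erase (g1 i s))
    · have hx : ∀ i s s', g i s ≠ (if s' = true then r else r') := by
        intro i s s' h
        have h1 := mem_erase.1 (g1 i s)
        have h2 := mem_erase.1 h1.2
        split_ifs at h
        · exact h2.1 h
        · exact h1.1 h
      intro i s i' s'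
      refine Fin.cases ?_ (fun i => ?_) i
      · refine Fin.cases ?_ (fun i' => ?_) i'
        · intro h
          simp only [Fin.cons_zero] at h
          refine ⟨rfl, ?_⟩
          cases s <;> cases s' <;> simp_all
        · intro h
          simp only [Fin.cons_zero, Fin.cons_succ] at h
          exact absurd h.symm (hx i' s' s)
      · refine Fin.cases ?_ (fun i' => ?_) i'
        · intro h
          simp only [Fin.cons_zero, Fin.cons_succ] at h
          exact absurd h (hx i s s')
        · intro h
          simp only [Fin.cons_succ] at h
          obtain ⟨h1, h2⟩ := g2 i s i' s' h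
          exact ⟨by rw [h1], h2⟩
    · intro i s s'
      refine Fin.cases ?_ (fun i => ?_) i
      · simp only [Fin.cons_zero]
        split_ifs <;> simp [htag]
      · simp only [Fin.cons_succ]
        exact g3 i s s'

/-- rows with the same tag are paired -/
theorem exists_pairing {R T : Type} [Fintype R] [DecidableEq R] [DecidableEq T] (tag : R → T)
    (n : ℕ) (hR : Fintype.card R = 2 * n)
    (hev : ∀ τ, Even ((univ : Finset R).filter fun r => tag r = τ).card) :
    ∃ (e : R ≃ Fin n × Bool) (bl : Fin n → T), (∀ r, tag r = bl (e r).1) ∧
      ∀ τ, 2 * ((univ : Finset (Fin n)).filter fun l => bl l = τ).card =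
        ((univ : Finset R).filter fun r => tag r = τ).card := by
  obtain ⟨g, g1, g2, g3⟩ := pairing tag n univ (by rw [card_univ, hR]) hev
  have hinj : Function.Injective (fun p : Fin n × Bool => g p.1 p.2) := by
    rintro ⟨i, s⟩ ⟨i', s'⟩ h
    obtain ⟨h1, h2⟩ := g2 i s i' s' h
    rw [h1, h2]
  have hbij : Function.Bijective (fun p : Fin n × Bool => g p.1 p.2) := by
    rw [Fintype.bijective_iff_injective_and_card]
    refine ⟨hinj, ?_⟩
    rw [Fintype.card_prod, Fintype.card_fin, Fintype.card_bool, hR]
    ring
  set E := Equiv.ofBijective _ hbij with hE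
  have hEg : ∀ r, g (E.symm r).1 (E.symm r).2 = r := fun r => E.apply_symm_apply r
  have htag : ∀ r, tag r = tag (g (E.symm r).1 true) := by
    intro r
    conv_lhs => rw [← hEg r]
    exact g3 _ _ _
  refine ⟨E.symm, fun i => tag (g i true), htag, ?_⟩
  intro τ
  have h1 : ((univ : Finset R).filter fun r => tag r = τ) =
      (((univ : Finset (Fin n)).filter fun l => tag (g l true) = τ) ×ˢ
        (univ : Finset Bool)).map E.toEmbedding := by
    ext r
    simp only [mem_filter, mem_univ, true_and, mem_map, mem_product, and_true,
      Equiv.coe_toEmbedding]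
    constructor
    · intro h
      exact ⟨E.symm r, by rw [← htag r]; exact h, E.apply_symm_apply r⟩
    · rintro ⟨p, hp, rfl⟩
      rw [htag, E.symm_apply_apply]
      exact hp
  rw [h1, card_map, card_product, card_univ, Fintype.card_bool, mul_comm]

end Pool.Agent.W482.LR
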