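import Pool.Agent.W482.LR.Piv
import Pool.Agent.W482.LR.Pair
import Pool.Agent.W683.LR.Pot
import Pool.Agent.W193.LR.Ord
import Pool.Agent.W305.LR.Lpe
import Pool.Agent.W465.LR.LPR
set_option autoImplicit false

/-!
# Candidate lists: the lower bound
-/

namespace Pool.Agent.W482.LR

open Finset

/-- the data: rows, pairing, blocks and orders -/
structure Data (m t K n : ℕ) (π : Fin m → Fin (2 * n) → ℕ) (cl : Fin m → Fin m)
    (e : Fin (2 * n) ≃ Fin n × Bool) (bl : Fin n → Option (Fin m × ℕ)) : Prop where
  below : Below bl K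
  used : ∀ l j i, bl l = some (j, i) → ∃ q, cl q = j
  card : ∀ q, ∀ i < K, (blk bl (cl q) i).card = 2 * t - 1
  le : ∀ j i, (blk bl j i).card ≤ 2 * t - 1
  lt : ∀ q r s i i', bl (e r).1 = some (cl q, i) → bl (e s).1 = some (cl q, i') → i < i' →
    π q r < π q s
  first : ∀ q r s i j i', bl (e r).1 = some (cl q, i) → bl (e s).1 = some (j, i') → j ≠ cl q →
    π q r < π q s

theorem exists_data (m t K n : ℕ) (hm : 1 ≤ m) (ht : 1 ≤ t) (hK : 1 ≤ K)
    (hn : (2 * t - 1) * 8 ^ (m * (m - 1)) * K ^ m ≤ n) (π : Fin m → Fin (2 * n) → ℕ)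
    (hπ : ∀ q, Function.Injective (π q)) :
    ∃ cl e bl, Data m t K n π cl e bl := by
  classical
  have : Nonempty (Fin m) := ⟨⟨0, hm⟩⟩
  obtain ⟨cl, B, h1, h2, h3, h4⟩ := Pool.Agent.W193.LR.ord (κ := Fin m) (R := Fin (2 * n)) univ π
    univ (2 * (2 * t - 1)) K univ_nonempty (fun q _ => hπ q) (by omega) hK (by
      rw [card_univ, card_univ, Fintype.card_fin, Fintype.card_fin, need]
      calc 2 * (2 * t - 1) * 8 ^ (m * (m - 1)) * K ^ m =
          2 * ((2 * t - 1) * 8 ^ (m * (m - 1)) * K ^ m) := by ring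
        _ ≤ 2 * n := Nat.mul_le_mul_left 2 hn)
  -- uniqueness of the block of a row
  have huniq : ∀ r q i q' i', i < K → i' < K → r ∈ B (cl q) i → r ∈ B (cl q') i' →
      cl q = cl q' ∧ i = i' := by
    intro r q i q' i' hi hi' hr hr'
    by_cases hc : cl q' = cl q
    · refine ⟨hc.symm, ?_⟩
      rw [hc] at hr'
      rcases lt_trichotomy i i' with h | h | h
      · exact absurd (h3 q (mem_univ q) i hi i' hi' h r hr r hr') (lt_irrefl _)
      · exact h
      · exact absurd (h3 q (mem_univ q) i' hi' i hi h r hr' r hr) (lt_irrefl _)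
    · exact absurd (h4 q (mem_univ q) q' (mem_univ q') hc i hi i' hi' r hr r hr') (lt_irrefl _)
  set P : Fin (2 * n) → Fin m × ℕ → Prop := fun r p =>
    (∃ q, cl q = p.1) ∧ p.2 < K ∧ r ∈ B p.1 p.2 with hP
  set tag : Fin (2 * n) → Option (Fin m × ℕ) := fun r =>
    if h : ∃ p, P r p then some h.choose else none with htag
  have htagP : ∀ r p, tag r = some p → P r p := by
    intro r p h
    rw [htag] at h
    by_cases hx : ∃ p, P r p
    · simp only [hx, dite_true, Option.some.injEq] at h
      rw [← h]
      exact hx.choose_spec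
    · simp only [hx, dite_false] at h
      exact absurd h (by simp)
  have hPtag : ∀ r p, P r p → tag r = some p := by
    rintro r ⟨j, i⟩ hp
    have hx : ∃ p, P r p := ⟨_, hp⟩
    have h5 : tag r = some hx.choose := by
      rw [htag]
      simp only [hx, dite_true]
    rw [h5]
    have h6 := hx.choose_spec
    obtain ⟨⟨q, hq⟩, hi, hr⟩ := hp
    obtain ⟨⟨q', hq'⟩, hi', hr'⟩ := h6
    simp only at hq hi hr
    subst hq
    rw [← hq'] at hr'
    obtain ⟨h7, h8⟩ := huniq r q i q' _ hi hi' hr hr'
    congr 1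
    exact Prod.ext (by rw [← hq']; exact h7.symm) h8.symm
  have hfib : ∀ q, ∀ i < K, ((univ : Finset (Fin (2 * n))).filter fun r => tag r = some (cl q, i)) =
      B (cl q) i := by
    intro q i hi
    ext r
    rw [mem_filter]
    constructor
    · rintro ⟨_, h⟩
      exact (htagP r _ h).2.2
    · intro h
      exact ⟨mem_univ r, hPtag r _ ⟨⟨q, rfl⟩, hi, h⟩⟩
  have hev : ∀ τ : Option (Fin m × ℕ), τ ≠ none →
      Even ((univ : Finset (Fin (2 * n))).filter fun r => tag r = τ).card := by
    intro τ hτ
    rcases τ with _ | ⟨j, i⟩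
    · exact absurd rfl hτ
    · by_cases h : (∃ q, cl q = j) ∧ i < K
      · obtain ⟨⟨q, rfl⟩, hi⟩ := h
        rw [hfib q i hi, (h2 q (mem_univ q) i hi).2]
        exact ⟨2 * t - 1, by ring⟩
      · have : ((univ : Finset (Fin (2 * n))).filter fun r => tag r = some (j, i)) = ∅ := by
          rw [filter_eq_empty_iff]
          intro r _ hr
          have := htagP r _ hr
          exact h ⟨this.1, this.2.1⟩
        rw [this]
        simp
  have hev0 : Even ((univ : Finset (Fin (2 * n))).filter fun r => tag r = none).card := by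
    have h5 : ((univ : Finset (Fin (2 * n))).filter fun r => tag r = none).card +
        ∑ τ ∈ (univ.image tag).erase none,
          ((univ : Finset (Fin (2 * n))).filter fun r => tag r = τ).card = 2 * n := by
      have h6 : ∑ τ ∈ insert none (univ.image tag),
          ((univ : Finset (Fin (2 * n))).filter fun r => tag r = τ).card = 2 * n := by
        have h7 := Finset.card_eq_sum_card_fiberwise (s := (univ : Finset (Fin (2 * n))))
          (f := tag) (t := insert none (univ.image tag)) (fun r _ => by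
            have : tag r ∈ univ.image tag := mem_image_of_mem tag (mem_univ r)
            exact mem_insert_of_mem this)
        rw [card_univ, Fintype.card_fin] at h7
        rw [← h7]
      have h9 := h6
      rw [← Finset.insert_erase (mem_insert_self none (univ.image tag)),
        sum_insert (notMem_erase _ _), Finset.erase_insert_eq_erase] at h9
      exact h9
    have h8 : Even (∑ τ ∈ (univ.image tag).erase none,
          ((univ : Finset (Fin (2 * n))).filter fun r => tag r = τ).card) :=
      Finset.even_sum _ fun τ hτ => hev τ (mem_erase.1 hτ).1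
    obtain ⟨k, hk⟩ := h8
    exact ⟨n - k, by omega⟩
  obtain ⟨e, bl, hbl, hcard⟩ := exists_pairing tag n (by rw [Fintype.card_fin]) (by
    intro τ
    rcases eq_or_ne τ none with rfl | h
    · exact hev0
    · exact hev τ h)
  have hblP : ∀ l j i, bl l = some (j, i) → (∃ q, cl q = j) ∧ i < K ∧
      e.symm (l, true) ∈ B j i := by
    intro l j i h
    refine htagP _ (j, i) ?_
    rw [hbl, e.apply_symm_apply]
    exact h
  refine ⟨cl, e, bl, ?_, ?_, ?_, ?_, ?_, ?_⟩
  · intro l j i h
    exact (hblP l j i h).2.1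
  · intro l j i h
    exact (hblP l j i h).1
  · intro q i hi
    have h5 := hcard (some (cl q, i))
    rw [hfib q i hi, (h2 q (mem_univ q) i hi).2] at h5
    show ((univ : Finset (Fin n)).filter fun l => bl l = some (cl q, i)).card = _
    omega
  · intro j i
    by_cases h : (∃ q, cl q = j) ∧ i < K
    · obtain ⟨⟨q, rfl⟩, hi⟩ := h
      have h5 := hcard (some (cl q, i))
      rw [hfib q i hi, (h2 q (mem_univ q) i hi).2] at h5
      show ((univ : Finset (Fin n)).filter fun l => bl l = some (cl q, i)).card ≤ _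
      omega
    · have : blk bl j i = ∅ := by
        rw [blk, filter_eq_empty_iff]
        intro l _ hl
        have := hblP l j i hl
        exact h ⟨this.1, this.2.1⟩
      rw [this]
      simp
  · intro q r s i i' hr hs hii
    rw [← hbl] at hr hs
    obtain ⟨_, a2, a3⟩ := htagP r _ hr
    obtain ⟨_, b2, b3⟩ := htagP s _ hs
    exact h3 q (mem_univ q) i a2 i' b2 hii r a3 s b3
  · intro q r s i j i' hr hs hj
    rw [← hbl] at hr hs
    obtain ⟨_, a2, a3⟩ := htagP r _ hr
    obtain ⟨⟨q', hq'⟩, b2, b3⟩ := htagP s _ hs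
    simp only at hq' b2 b3
    subst hq'
    exact h4 q (mem_univ q) q' (mem_univ q') hj i a2 i' b2 r a3 s b3

section
variable {m t K n : ℕ} {π : Fin m → Fin (2 * n) → ℕ} {cl : Fin m → Fin m}
    {e : Fin (2 * n) ≃ Fin n × Bool} {bl : Fin n → Option (Fin m × ℕ)} {D : ℕ}
    {κ : Fin (2 * n) → ℕ}

/-- one step of a list rule -/
theorem list_step (hd : Data m t K n π cl e bl) (ht : 1 ≤ t) (hK : 1 ≤ K)
    (h : Sett bl D κ (2 * t - 1)) (v : Fin n → Bool) (y : Fin n → ℝ)
    (hs : ListStep (mat bl D e κ) (rhs bl D e κ) (obj bl K) π t (vtx bl D v) y) :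
    ∃ v', y = vtx bl D v' ∧ ((∀ q, 0 < cnt (blk bl (cl q)) K v) →
      ∀ q, cnt (blk bl (cl q)) K v ≤ cnt (blk bl (cl q)) K v' + 1) := by
  classical
  have hE : LPE := Pool.Agent.W305.LR.lpe
  have hR : LPR := Pool.Agent.W465.LR.lpr
  obtain ⟨q, r, hp, hlt, hfew⟩ := hs
  obtain ⟨hv, rfl⟩ := (h.pivot hE hR v r y).1 hp
  refine ⟨_, rfl, fun hpos q' => ?_⟩
  have himp := (h.improving hE hR hK hd.below v r).1 ⟨_, hp, hlt⟩
  obtain ⟨_, j, i, hbl, hup⟩ := himp
  by_cases hj : j = cl q'
  swap
  · -- another component is flipped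
    have : cnt (blk bl (cl q')) K v = cnt (blk bl (cl q')) K (flp v (e r).1) := by
      refine cnt_congr fun k _ l hl => (flp_ne v ?_).symm
      rintro rfl
      rw [mem_blk, hbl] at hl
      simp at hl
      exact hj hl.1
    omega
  subst hj
  obtain ⟨i₀, hi₀, ⟨T, hT, hTc, hTup⟩, hflip⟩ := (Pool.Agent.W683.LR.pot (blk bl (cl q)) K t ht
    (hd.card q) (fun a _ b _ hab => blk_disj bl (cl q) hab)).2 v (hpos q)
  -- the rows of `T` are improving and precede `r` unless `r` is in an early block of `cl q`
  have hkey : cl q' = cl q ∧ i ≤ i₀ := by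
    by_contra hcon
    have hbefore : ∀ s : Fin (2 * n), bl (e s).1 = some (cl q, i₀) → π q s < π q r := by
      intro s hs
      by_cases hc : cl q' = cl q
      · have hi : i₀ < i := by
          by_contra hh
          exact hcon ⟨hc, by omega⟩
        rw [hc] at hbl
        exact hd.lt q s r i₀ i hs hbl hi
      · exact hd.first q s r i₀ (cl q') i hs hbl hc
    have hinj : Function.Injective fun l => e.symm (l, v l) := by
      intro a b hab
      have := e.symm.injective hab
      exact (Prod.mk.inj this).1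
    set T' : Finset (Fin (2 * n)) := T.image fun l => e.symm (l, v l) with hT'
    have hsub : (T' : Set (Fin (2 * n))) ⊆ {s | Improving (mat bl D e κ) (rhs bl D e κ) (obj bl K)
        (vtx bl D v) s ∧ π q s < π q r} := by
      intro s hs
      rw [hT', mem_coe, mem_image] at hs
      obtain ⟨l, hl', rfl⟩ := hs
      have hb : bl l = some (cl q, i₀) := mem_blk.1 (hT hl')
      constructor
      · refine (h.improving hE hR hK hd.below v _).2 ⟨by rw [e.apply_symm_apply], cl q, i₀, ?_, ?_⟩
        · rw [e.apply_symm_apply]; exact hb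
        · rw [e.apply_symm_apply]; exact hTup l hl'
      · exact hbefore _ (by rw [e.apply_symm_apply]; exact hb)
    have h5 := Set.ncard_le_ncard hsub (Set.toFinite _)
    rw [Set.ncard_coe_finset, hT', card_image_of_injective _ hinj, hTc] at h5
    omega
  rw [hkey.1] at hbl hup ⊢
  exact hflip i hkey.2 _ (mem_blk.2 hbl) hup

end

end Pool.Agent.W482.LR
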