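import Pool.Agent.W482.LR.Val
set_option autoImplicit false

/-!
# Pivots, improving rows, Dantzig's rule
-/

namespace Pool.Agent.W482.LR

open Finset

set_option linter.unusedSectionVars false

variable {J : Type} [DecidableEq J] {X : Type} [Fintype X] [DecidableEq X] {R : Type}
  {bl : X → Option (J × ℕ)} {D : ℕ} {e : R ≃ X × Bool} {κ : R → ℕ} {β : ℕ}

/-- the setting: blocks of at most `β` elements, `2 β < D`, positive factors `κ` -/
structure Sett (bl : X → Option (J × ℕ)) (D : ℕ) (κ : R → ℕ) (β : ℕ) : Prop where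
  c : ∀ j i, (blk bl j i).card ≤ β
  d : 2 * β < D
  k : ∀ r, 0 < κ r

lemma Sett.slack (hR : LPR) (h : Sett bl D κ β) (v : X → Bool) (l : X) :
    0 < (D : ℝ) - 2 * inp bl D v l := by
  have h1 := ((hR bl D (Equiv.refl (X × Bool)) (fun _ => 1) β h.c h.d).1 v l).2
  have h2 : (2 : ℝ) * β < D := by exact_mod_cast h.d
  linarith

lemma Sett.loose (hR : LPR) (h : Sett bl D κ β) (v : X → Bool) (r : R) (hv : v (e r).1 ≠ (e r).2) :
    row (mat bl D e κ) (vtx bl D v) r < rhs bl D e κ r := by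
  obtain ⟨_, h2, h3⟩ := hR bl D e κ β h.c h.d
  have h6 := h3 v r hv
  have h7 := h.slack hR v (e r).1
  have h8 : (0 : ℝ) < κ r := by exact_mod_cast h.k r
  have := mul_pos h8 h7
  linarith

lemma Sett.tight (hR : LPR) (h : Sett bl D κ β) (v : X → Bool) (r : R) :
    row (mat bl D e κ) (vtx bl D v) r = rhs bl D e κ r ↔ v (e r).1 = (e r).2 := by
  constructor
  · intro h4
    by_contra h5
    exact absurd h4 (h.loose hR v r h5).ne
  · exact (hR bl D e κ β h.c h.d).2.1 v r

lemma Sett.mem (hE : LPE) (h : Sett bl D κ β) (v : X → Bool) :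
    vtx bl D v ∈ (poly (mat bl D e κ) (rhs bl D e κ)).extremePoints ℝ :=
  ((hE bl D e κ β h.c h.d h.k).2 _).2 ⟨v, rfl⟩

lemma Sett.inj (hR : LPR) (h : Sett bl D κ β) {v v' : X → Bool} (hv : vtx bl D v = vtx bl D v') :
    v = v' := by
  have h' : Sett bl D (fun _ : X × Bool => 1) β := ⟨h.c, h.d, fun _ => Nat.one_pos⟩
  ext1 l
  have h1 := (h'.tight (e := Equiv.refl (X × Bool)) hR v (l, v l)).2 rfl
  rw [hv] at h1
  exact ((h'.tight (e := Equiv.refl (X × Bool)) hR v' (l, v l)).1 h1).symm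

/-- pivots are flips -/
lemma Sett.pivot (hE : LPE) (hR : LPR) (h : Sett bl D κ β) (v : X → Bool) (r : R) (y : X → ℝ) :
    Pivot (mat bl D e κ) (rhs bl D e κ) (vtx bl D v) r y ↔
      v (e r).1 = (e r).2 ∧ y = vtx bl D (flp v (e r).1) := by
  constructor
  · rintro ⟨_, hy, h1, h2, h3⟩
    have hv := (h.tight hR v r).1 h1
    refine ⟨hv, ?_⟩
    obtain ⟨v', rfl⟩ := ((hE bl D e κ β h.c h.d h.k).2 _).1 hy
    congr 1
    ext1 l
    by_cases hl : l = (e r).1
    · rw [hl, flp_self]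
      have h4 : v' (e r).1 ≠ (e r).2 := fun h5 => absurd ((h.tight hR v' r).2 h5) h2.ne
      rw [hv]
      revert h4
      cases v' (e r).1 <;> cases (e r).2 <;> simp
    · rw [flp_ne v hl]
      have h5 := h3 (e.symm (l, v l)) (by
        rintro rfl
        exact hl (by rw [e.apply_symm_apply])) ((h.tight hR v _).2 (by
          rw [e.apply_symm_apply]))
      have h6 := (h.tight hR v' _).1 h5
      rw [e.apply_symm_apply] at h6
      exact h6
  · rintro ⟨hv, rfl⟩
    refine ⟨h.mem hE v, h.mem hE _, (h.tight hR v r).2 hv, h.loose hR _ r ?_, ?_⟩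
    · rw [flp_self, hv]
      cases (e r).2 <;> simp
    · intro s hs h1
      have h2 := (h.tight hR v s).1 h1
      refine (h.tight hR _ s).2 ?_
      rw [flp_ne v, h2]
      intro h3
      refine hs (e.injective (Prod.ext h3 ?_))
      rw [← h2, ← hv, h3]

/-- all blocks have an index below `K` -/
def Below (bl : X → Option (J × ℕ)) (K : ℕ) : Prop := ∀ l j i, bl l = some (j, i) → i < K

lemma Sett.improving [Fintype J] (hE : LPE) (hR : LPR) (h : Sett bl D κ β) {K : ℕ} (hK : 1 ≤ K)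
    (hb : Below bl K) (v : X → Bool) (r : R) :
    Improving (mat bl D e κ) (rhs bl D e κ) (obj bl K) (vtx bl D v) r ↔
      v (e r).1 = (e r).2 ∧ ∃ j i, bl (e r).1 = some (j, i) ∧
        Up (blk bl j) K v i (e r).1 := by
  have hD : 0 < D := by have := h.d; omega
  have hs : 2 * inp bl D v (e r).1 < D := by
    have := h.slack hR v (e r).1
    linarith
  constructor
  · rintro ⟨y, hy, hlt⟩
    obtain ⟨h1, rfl⟩ := (h.pivot hE hR v r y).1 hy
    refine ⟨h1, ?_⟩
    rcases hbl : bl (e r).1 with _ | ⟨j, i⟩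
    · rw [val_flip_none bl hK v hbl] at hlt
      exact absurd hlt (lt_irrefl _)
    · exact ⟨j, i, rfl, (val_lt_iff bl v hbl (hb _ _ _ hbl) hs hD).1 hlt⟩
  · rintro ⟨h1, j, i, hbl, hup⟩
    exact ⟨_, (h.pivot hE hR v r _).2 ⟨h1, rfl⟩,
      (val_lt_iff bl v hbl (hb _ _ _ hbl) hs hD).2 hup⟩

lemma inp_flp (v : X → Bool) (l : X) : inp bl D (flp v l) l = inp bl D v l := by
  unfold inp
  rcases hbl : bl l with _ | ⟨j, i⟩
  · rfl
  · refine PP_congr bl D j i fun k hk l' hl' => flp_ne v ?_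
    rintro rfl
    rw [mem_blk, hbl] at hl'
    simp at hl'
    omega

/-- the rate of the row `r` -/
lemma Sett.rate [Fintype J] (hR : LPR) (h : Sett bl D κ β) {K : ℕ}
    (hb : Below bl K) (v : X → Bool) (r : R) (hv : v (e r).1 = (e r).2) {j : J} {i : ℕ}
    (hl : bl (e r).1 = some (j, i)) :
    rate (mat bl D e κ) (rhs bl D e κ) (obj bl K) (vtx bl D v) r (vtx bl D (flp v (e r).1)) =
      sg v (e r).1 * ww (blk bl j) K v (i + 1) / (D : ℝ) ^ (K - i) / κ r := by
  have hD : 0 < D := by have := h.d; omega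
  have hD' : (D : ℝ) ≠ 0 := by positivity
  have hi := hb _ _ _ hl
  have h3 := (hR bl D e κ β h.c h.d).2.2 (flp v (e r).1) r (by
    rw [flp_self, hv]
    cases (e r).2 <;> simp)
  have hs := (h.slack hR v (e r).1).ne'
  have hk : (κ r : ℝ) ≠ 0 := by
    have := h.k r
    positivity
  rw [LR.rate, h3, val_flip bl hD v hl hi, inp_flp]
  have e1 : K - i = (K - 1 - i) + 1 := by omega
  rw [e1, pow_succ]
  field_simp

end Pool.Agent.W482.LR
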