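import Mathlib
import Pool.Agent.H454R3.Defs
set_option autoImplicit false

/-!
# Candidate lists in the simplex method: definitions and statements of the parts
-/

namespace Pool.Agent.W482.LR

open Finset

variable {R X : Type*} [Fintype X]

/-- the left hand side of the row `r` of the system `A x ≤ b` at the point `x` -/
def row (A : R → X → ℤ) (x : X → ℝ) (r : R) : ℝ := ∑ l, (A r l : ℝ) * x l

/-- the polyhedron `A x ≤ b` -/
def poly (A : R → X → ℤ) (b : R → ℤ) : Set (X → ℝ) := {x | ∀ r, row A x r ≤ b r}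

/-- the value of the objective function `c x` -/
def val (c : X → ℤ) (x : X → ℝ) : ℝ := ∑ l, (c l : ℝ) * x l

/-- the vertex `y` is reached from the vertex `x` by leaving row `r`: row `r` is tight at `x` and
not tight at `y`, and all other rows which are tight at `x` remain tight. (In the simplex method
the slack variable of row `r` enters the basis.) -/
def Pivot (A : R → X → ℤ) (b : R → ℤ) (x : X → ℝ) (r : R) (y : X → ℝ) : Prop :=
  x ∈ (poly A b).extremePoints ℝ ∧ y ∈ (poly A b).extremePoints ℝ ∧ row A x r = b r ∧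
    row A y r < b r ∧ ∀ s, s ≠ r → row A x s = b s → row A y s = b s

/-- row `r` can be left from `x` with an improvement of the objective function -/
def Improving (A : R → X → ℤ) (b : R → ℤ) (c : X → ℤ) (x : X → ℝ) (r : R) : Prop :=
  ∃ y, Pivot A b x r y ∧ val c x < val c y

/-- A step of a candidate list rule: an improving row is left which is among the first `t`
improving rows in one of the orders `π q`. -/
def ListStep {Q : Type*} (A : R → X → ℤ) (b : R → ℤ) (c : X → ℤ) (π : Q → R → ℕ) (t : ℕ)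
    (x y : X → ℝ) : Prop :=
  ∃ q r, Pivot A b x r y ∧ val c x < val c y ∧
    {s | Improving A b c x s ∧ π q s < π q r}.ncard < t

/-- the increase of the objective function per unit of the slack of the row which is left -/
noncomputable def rate (A : R → X → ℤ) (b : R → ℤ) (c : X → ℤ) (x : X → ℝ) (r : R)
    (y : X → ℝ) : ℝ := (val c y - val c x) / (b r - row A y r)

/-- A step of Dantzig's rule: an improving row is left for which the objective function increases
at the largest rate per unit of slack. -/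
def DantzigStep (A : R → X → ℤ) (b : R → ℤ) (c : X → ℤ) (x y : X → ℝ) : Prop :=
  ∃ r, Pivot A b x r y ∧ val c x < val c y ∧
    ∀ s z, Pivot A b x s z → rate A b c x s z ≤ rate A b c x r y

/-- flip coordinate `l` -/
def flp {X : Type*} [DecidableEq X] (v : X → Bool) (l : X) : X → Bool :=
  Function.update v l (!v l)

/-! ## part ORD: blocks for `m` orders -/

/-- the number of labels needed for `m` orders -/
def need (w K m : ℕ) : ℕ := w * 8 ^ (m * (m - 1)) * K ^ m

/-- Every set `S` of at least `need w K |Q|` labels with orders `π q`, `q ∈ Q`, contains blocks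
`B j i` of `w` labels, `i < K`, `j = cl q` for some `q ∈ Q`, such that in the order of `q` the
blocks `B (cl q) 0`, ..., `B (cl q) (K - 1)` come in this order and before all blocks `B j i`
with `j ≠ cl q`. -/
def ORD : Prop :=
  ∀ {κ R : Type} [DecidableEq κ] [DecidableEq R] (Q : Finset κ) (π : κ → R → ℕ)
    (S : Finset R) (w K : ℕ), Q.Nonempty → (∀ q ∈ Q, Function.Injective (π q)) → 1 ≤ w → 1 ≤ K →
    need w K Q.card ≤ S.card →
    ∃ (cl : κ → κ) (B : κ → ℕ → Finset R),
      (∀ q ∈ Q, cl q ∈ Q) ∧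
      (∀ q ∈ Q, ∀ i < K, B (cl q) i ⊆ S ∧ (B (cl q) i).card = w) ∧
      (∀ q ∈ Q, ∀ i < K, ∀ i' < K, i < i' → ∀ x ∈ B (cl q) i, ∀ y ∈ B (cl q) i', π q x < π q y) ∧
      (∀ q ∈ Q, ∀ q' ∈ Q, cl q' ≠ cl q → ∀ i < K, ∀ i' < K,
        ∀ x ∈ B (cl q) i, ∀ y ∈ B (cl q') i', π q x < π q y)

/-! ## parts LPE, LPR: the polytope -/

section LP

variable {J : Type} [DecidableEq J] {X : Type} [Fintype X] [DecidableEq X] {R : Type}

/-- the block `i` of the component `j` -/
def blk (bl : X → Option (J × ℕ)) (j : J) (i : ℕ) : Finset X :=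
  univ.filter fun l => bl l = some (j, i)

/-- the previous (faster) block -/
def pre (bl : X → Option (J × ℕ)) (l : X) : Finset X :=
  match bl l with
  | some (j, i + 1) => blk bl j i
  | _ => ∅

/-- the constraint matrix; row `e.symm (l, true)` is `D x_l + ∑ x ≤ 2 D + |pre l|` and row
`e.symm (l, false)` is `- D x_l + ∑ x ≤ |pre l| - D`, the sums over `pre l`, times `κ r`. -/
def mat (bl : X → Option (J × ℕ)) (D : ℕ) (e : R ≃ X × Bool) (κ : R → ℕ) (r : R) (l : X) : ℤ :=
  κ r * ((if l = (e r).1 then (if (e r).2 then (D : ℤ) else -D) else 0) +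
    (if l ∈ pre bl (e r).1 then 1 else 0))

/-- the right hand side -/
def rhs (bl : X → Option (J × ℕ)) (D : ℕ) (e : R ≃ X × Bool) (κ : R → ℕ) (r : R) : ℤ :=
  κ r * (if (e r).2 then 2 * (D : ℤ) + (pre bl (e r).1).card else (pre bl (e r).1).card - D)

/-- the sum of the excess coordinates `x - 1` over the blocks before `i` of component `j` at the
vertex `v` : `P 0 = 0`, `P (i+1) = ∑ over block i of (1 - P i / D if v l, P i / D otherwise)` -/
noncomputable def PP (bl : X → Option (J × ℕ)) (D : ℕ) (v : X → Bool) (j : J) : ℕ → ℝ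
  | 0 => 0
  | i + 1 => ∑ l ∈ blk bl j i, if v l then 1 - PP bl D v j i / D else PP bl D v j i / D

/-- the excess sum seen by the variable `l` -/
noncomputable def inp (bl : X → Option (J × ℕ)) (D : ℕ) (v : X → Bool) (l : X) : ℝ :=
  match bl l with
  | some (j, i) => PP bl D v j i
  | none => 0

/-- the vertex -/
noncomputable def vtx (bl : X → Option (J × ℕ)) (D : ℕ) (v : X → Bool) (l : X) : ℝ :=
  if v l then 2 - inp bl D v l / D else 1 + inp bl D v l / D

/-- **The polytope is a combinatorial cube: bounds and vertices.** -/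
def LPE : Prop :=
  ∀ {J X R : Type} [DecidableEq J] [Fintype X] [DecidableEq X] (bl : X → Option (J × ℕ))
    (D : ℕ) (e : R ≃ X × Bool) (κ : R → ℕ) (β : ℕ), (∀ j i, (blk bl j i).card ≤ β) →
    2 * β < D → (∀ r, 0 < κ r) →
    (∀ x ∈ poly (mat bl D e κ) (rhs bl D e κ), ∀ l, 1 ≤ x l ∧ x l ≤ 2) ∧
    (∀ x, x ∈ (poly (mat bl D e κ) (rhs bl D e κ)).extremePoints ℝ ↔ ∃ v, x = vtx bl D v)

/-- **The rows at the vertices.** -/
def LPR : Prop :=
  ∀ {J X R : Type} [DecidableEq J] [Fintype X] [DecidableEq X] (bl : X → Option (J × ℕ))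
    (D : ℕ) (e : R ≃ X × Bool) (κ : R → ℕ) (β : ℕ), (∀ j i, (blk bl j i).card ≤ β) →
    2 * β < D →
    (∀ v l, 0 ≤ inp bl D v l ∧ inp bl D v l ≤ β) ∧
    (∀ v r, v (e r).1 = (e r).2 → row (mat bl D e κ) (vtx bl D v) r = rhs bl D e κ r) ∧
    (∀ v r, v (e r).1 ≠ (e r).2 → (rhs bl D e κ r : ℝ) - row (mat bl D e κ) (vtx bl D v) r =
      κ r * (D - 2 * inp bl D v (e r).1))

end LP

/-! ## part POT: the counter -/

section Pot

variable {X : Type*} [DecidableEq X]

/-- falses minus trues in a block -/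
def mu (B : ℕ → Finset X) (v : X → Bool) (i : ℕ) : ℤ := ∑ l ∈ B i, if v l then -1 else 1

/-- the product of `mu` over the blocks `i, ..., K - 1` -/
def ww (B : ℕ → Finset X) (K : ℕ) (v : X → Bool) (i : ℕ) : ℤ := ∏ k ∈ Finset.Ico i K, mu B v k

/-- the variable `l` of block `i` is improving -/
def Up (B : ℕ → Finset X) (K : ℕ) (v : X → Bool) (i : ℕ) (l : X) : Prop :=
  0 < (if v l then -1 else 1) * ww B K v (i + 1)

/-- the value of the counter -/
def cnt (B : ℕ → Finset X) (K : ℕ) (v : X → Bool) : ℕ :=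
  ∑ i ∈ Finset.range K, if 0 < ww B K v i then 2 ^ i else 0

/-- **The counter.** -/
def POT : Prop :=
  ∀ {X : Type} [DecidableEq X] (B : ℕ → Finset X) (K t : ℕ), 1 ≤ t →
    (∀ i < K, (B i).card = 2 * t - 1) →
    (∀ i < K, ∀ i' < K, i ≠ i' → Disjoint (B i) (B i')) →
    (∀ v, (∀ i < K, ∀ l ∈ B i, v l = false) → cnt B K v = 2 ^ K - 1) ∧
    (∀ v, 0 < cnt B K v → ∃ i₀ < K,
      (∃ T : Finset X, T ⊆ B i₀ ∧ T.card = t ∧ ∀ l ∈ T, Up B K v i₀ l) ∧
      ∀ i ≤ i₀, ∀ l ∈ B i, Up B K v i l → cnt B K v ≤ cnt B K (flp v l) + 1)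

end Pot

/-! ## part UPB: the upper bound on cubes -/

open Pool.Agent.H454R3 in
/-- **The upper bound on cubes.** -/
def UPB : Prop :=
  ∀ (n t : ℕ) (π : Fin n → ℕ) (f : (Fin n → Bool) → ℕ), 1 ≤ t → Function.Injective π →
    (∀ (U : Finset (Fin n)) (x : Fin n → Bool), ∃! y : Fin n → Bool,
      (∀ i, i ∉ U → y i = x i) ∧ ∀ i ∈ U, f (flip y i) < f y) →
    ∀ x : Fin n → Bool, ∃ (L : ℕ) (v : ℕ → Fin n → Bool), v 0 = x ∧
      (∀ k < L, ∃ i ∈ improving f (v k), v (k + 1) = flip (v k) i ∧
        ((improving f (v k)).filter fun j => π j < π i).card < t) ∧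
      (∀ y, f y ≤ f (v L)) ∧ L + 1 ≤ (t + 1) ^ ((n + t - 1) / t)

end Pool.Agent.W482.LR
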