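import Pool.Agent.W482.LR.Stm
set_option autoImplicit false

/-!
# The objective function at the vertices
-/

namespace Pool.Agent.W482.LR

open Finset

set_option linter.unusedSectionVars false
set_option linter.unnecessarySeqFocus false

variable {J : Type} [DecidableEq J] {X : Type} [Fintype X] [DecidableEq X]

lemma mem_blk {bl : X → Option (J × ℕ)} {j : J} {i : ℕ} {l : X} :
    l ∈ blk bl j i ↔ bl l = some (j, i) := by
  simp [blk]

lemma blk_disj (bl : X → Option (J × ℕ)) (j : J) {i i' : ℕ} (h : i ≠ i') :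
    Disjoint (blk bl j i) (blk bl j i') := by
  rw [disjoint_left]
  intro l h1 h2
  rw [mem_blk] at h1 h2
  rw [h1] at h2
  exact h (by simpa using h2)

lemma flp_self (v : X → Bool) (l : X) : flp v l l = !v l := by simp [flp]

lemma flp_ne (v : X → Bool) {l l' : X} (h : l' ≠ l) : flp v l l' = v l' := by simp [flp, h]

lemma flp_flp (v : X → Bool) (l : X) : flp (flp v l) l = v := by
  ext l'
  by_cases h : l' = l
  · subst h; rw [flp_self, flp_self, Bool.not_not]
  · rw [flp_ne _ h, flp_ne _ h]

/-- `PP` depends only on the earlier blocks of the component -/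
lemma PP_congr (bl : X → Option (J × ℕ)) (D : ℕ) {v v' : X → Bool} (j : J) (i : ℕ)
    (h : ∀ k < i, ∀ l ∈ blk bl j k, v l = v' l) : PP bl D v j i = PP bl D v' j i := by
  induction i with
  | zero => rfl
  | succ i ih =>
    have h1 := ih fun k hk => h k (by omega)
    rw [PP, PP, h1]
    exact sum_congr rfl fun l hl => by rw [h i (by omega) l hl]

lemma mu_congr {B : ℕ → Finset X} {v v' : X → Bool} {i : ℕ} (h : ∀ l ∈ B i, v l = v' l) :
    mu B v i = mu B v' i := sum_congr rfl fun l hl => by rw [h l hl]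

lemma ww_congr {B : ℕ → Finset X} {K : ℕ} {v v' : X → Bool} {i : ℕ}
    (h : ∀ k, i ≤ k → k < K → ∀ l ∈ B k, v l = v' l) : ww B K v i = ww B K v' i :=
  prod_congr rfl fun k hk => mu_congr (h k (mem_Ico.1 hk).1 (mem_Ico.1 hk).2)

lemma cnt_congr {B : ℕ → Finset X} {K : ℕ} {v v' : X → Bool}
    (h : ∀ k < K, ∀ l ∈ B k, v l = v' l) : cnt B K v = cnt B K v' :=
  sum_congr rfl fun i _ => by rw [ww_congr (fun k _ hk => h k hk)]

/-- the sign of a coordinate -/
noncomputable def sg (v : X → Bool) (l : X) : ℝ := if v l then -1 else 1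

/-- the effect of a flip -/
lemma PP_flip (bl : X → Option (J × ℕ)) {D : ℕ} (hD : 0 < D) (v : X → Bool) {j : J} {i : ℕ}
    {l : X} (hl : bl l = some (j, i)) (d : ℕ) :
    PP bl D (flp v l) j (i + 1 + d) - PP bl D v j (i + 1 + d) =
      sg v l * (1 - 2 * (PP bl D v j i / D)) *
        (∏ k ∈ Finset.Ico (i + 1) (i + 1 + d), (mu (blk bl j) v k : ℝ)) / (D : ℝ) ^ d := by
  have hD' : (D : ℝ) ≠ 0 := by positivity
  induction d with
  | zero =>
    simp only [add_zero, Finset.Ico_self, prod_empty, mul_one, pow_zero, div_one]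
    have h1 : PP bl D (flp v l) j i = PP bl D v j i := by
      refine PP_congr bl D j i fun k hk l' hl' => flp_ne v ?_
      rintro rfl
      rw [mem_blk, hl] at hl'
      simp at hl'
      omega
    rw [PP, PP, h1, ← sum_sub_distrib, sum_eq_single_of_mem l (mem_blk.2 hl)]
    · rw [flp_self, sg]
      cases v l <;> simp <;> ring
    · intro l' _ hne
      rw [flp_ne v hne, sub_self]
  | succ d ih =>
    have e1 : i + 1 + (d + 1) = (i + 1 + d) + 1 := by ring
    rw [e1, PP, PP, ← sum_sub_distrib]
    have h2 : ∀ l' ∈ blk bl j (i + 1 + d),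
        ((if flp v l l' = true then 1 - PP bl D (flp v l) j (i + 1 + d) / D
          else PP bl D (flp v l) j (i + 1 + d) / D) -
        (if v l' = true then 1 - PP bl D v j (i + 1 + d) / D
          else PP bl D v j (i + 1 + d) / D)) =
        ((PP bl D (flp v l) j (i + 1 + d) - PP bl D v j (i + 1 + d)) / D) *
          (((if v l' then -1 else 1 : ℤ)) : ℝ) := by
      intro l' hl'
      have hne : l' ≠ l := by
        rintro rfl
        rw [mem_blk, hl] at hl'
        simp at hl'
        omega
      rw [flp_ne v hne]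
      cases v l' <;> simp <;> ring
    rw [sum_congr rfl h2, ← mul_sum, ih, prod_Ico_succ_top (by omega), mu]
    push_cast
    rw [pow_succ]
    field_simp

/-- the objective function -/
def obj (bl : X → Option (J × ℕ)) (K : ℕ) (l : X) : ℤ :=
  match bl l with
  | some (_, i) => if i + 1 = K then 1 else 0
  | none => 0

lemma val_vtx [Fintype J] (bl : X → Option (J × ℕ)) {D K : ℕ} (v : X → Bool) :
    val (obj bl (K + 1)) (vtx bl D v) =
      ∑ j : J, (((blk bl j K).card : ℝ) + PP bl D v j (K + 1)) := by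
  have h1 : ∀ j : J, ((blk bl j K).card : ℝ) + PP bl D v j (K + 1) =
      ∑ l ∈ blk bl j K, vtx bl D v l := by
    intro j
    rw [card_eq_sum_ones, PP]
    push_cast
    rw [← sum_add_distrib]
    refine sum_congr rfl fun l hl => ?_
    have : inp bl D v l = PP bl D v j K := by
      rw [mem_blk] at hl
      simp only [inp, hl]
    rw [vtx, this]
    cases v l <;> simp <;> ring
  rw [sum_congr rfl fun j _ => h1 j, val]
  have h2 : ∀ l, (obj bl (K + 1) l : ℝ) * vtx bl D v l =
      ∑ j : J, if l ∈ blk bl j K then vtx bl D v l else 0 := by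
    intro l
    unfold obj
    rcases hbl : bl l with _ | ⟨j, i⟩
    · simp only [mem_blk, hbl]
      simp
    · simp only [mem_blk, hbl]
      by_cases h : i = K
      · subst h
        simp
      · simp [h]
  rw [sum_congr rfl fun l _ => h2 l, sum_comm]
  refine sum_congr rfl fun j _ => ?_
  rw [← sum_filter]
  congr 1
  ext l
  simp

lemma ww_cast (B : ℕ → Finset X) (K : ℕ) (v : X → Bool) (i : ℕ) :
    (ww B K v i : ℝ) = ∏ k ∈ Finset.Ico i K, (mu B v k : ℝ) := by
  rw [ww]; push_cast; rfl

/-- the increase of the objective function when a used coordinate is flipped -/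
lemma val_flip [Fintype J] (bl : X → Option (J × ℕ)) {D K : ℕ} (hD : 0 < D) (v : X → Bool)
    {j : J} {i : ℕ} {l : X} (hl : bl l = some (j, i)) (hi : i < K) :
    val (obj bl K) (vtx bl D (flp v l)) - val (obj bl K) (vtx bl D v) =
      sg v l * (1 - 2 * (inp bl D v l / D)) * ww (blk bl j) K v (i + 1) /
        (D : ℝ) ^ (K - 1 - i) := by
  obtain ⟨K, rfl⟩ : ∃ K', K = K' + 1 := ⟨K - 1, by omega⟩
  rw [val_vtx, val_vtx, ← sum_sub_distrib]
  rw [sum_eq_single j]
  · rw [add_sub_add_left_eq_sub]
    have h1 := PP_flip bl hD v hl (K - i)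
    have e1 : i + 1 + (K - i) = K + 1 := by omega
    have e2 : K + 1 - 1 - i = K - i := by omega
    rw [e1] at h1
    rw [h1, e2, ww_cast]
    have : inp bl D v l = PP bl D v j i := by simp only [inp, hl]
    rw [this]
  · intro j' _ hne
    rw [add_sub_add_left_eq_sub, sub_eq_zero]
    refine PP_congr bl D j' _ fun k _ l' hl' => flp_ne v ?_
    rintro rfl
    rw [mem_blk, hl] at hl'
    simp at hl'
    exact hne hl'.1.symm
  · intro h
    exact absurd (mem_univ j) h

/-- flipping an unused coordinate does not change the objective function -/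
lemma val_flip_none [Fintype J] (bl : X → Option (J × ℕ)) {D K : ℕ} (hK : 1 ≤ K) (v : X → Bool)
    {l : X} (hl : bl l = none) :
    val (obj bl K) (vtx bl D (flp v l)) = val (obj bl K) (vtx bl D v) := by
  obtain ⟨K, rfl⟩ : ∃ K', K = K' + 1 := ⟨K - 1, by omega⟩
  rw [val_vtx, val_vtx]
  refine sum_congr rfl fun j _ => ?_
  congr 1
  refine PP_congr bl D j _ fun k _ l' hl' => flp_ne v ?_
  rintro rfl
  rw [mem_blk, hl] at hl'
  simp at hl'

lemma Up_iff (B : ℕ → Finset X) (K : ℕ) (v : X → Bool) (i : ℕ) (l : X) :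
    Up B K v i l ↔ 0 < sg v l * (ww B K v (i + 1) : ℝ) := by
  unfold Up sg
  rw [← Int.cast_pos (R := ℝ)]
  push_cast
  rfl

/-- improvement and the counter -/
lemma val_lt_iff [Fintype J] (bl : X → Option (J × ℕ)) {D K : ℕ} (v : X → Bool)
    {j : J} {i : ℕ} {l : X} (hl : bl l = some (j, i)) (hi : i < K)
    (hin : 2 * inp bl D v l < D) (hD : 0 < D) :
    val (obj bl K) (vtx bl D v) < val (obj bl K) (vtx bl D (flp v l)) ↔
      Up (blk bl j) K v i l := by
  rw [Up_iff, ← sub_pos, val_flip bl hD v hl hi]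
  have hD' : (0 : ℝ) < D := by exact_mod_cast hD
  have h1 : 0 < 1 - 2 * (inp bl D v l / D) := by
    have : inp bl D v l / D < 1 / 2 := by
      rw [div_lt_div_iff₀ hD' (by norm_num)]
      linarith
    linarith
  have e : sg v l * (1 - 2 * (inp bl D v l / D)) * ww (blk bl j) K v (i + 1) /
        (D : ℝ) ^ (K - 1 - i) = (sg v l * ww (blk bl j) K v (i + 1)) *
          ((1 - 2 * (inp bl D v l / D)) / (D : ℝ) ^ (K - 1 - i)) := by ring
  rw [e]
  have h2 : 0 < (1 - 2 * (inp bl D v l / D)) / (D : ℝ) ^ (K - 1 - i) := by positivity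
  exact ⟨fun h => pos_of_mul_pos_left h h2.le, fun h => mul_pos h h2⟩

end Pool.Agent.W482.LR
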